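import Pool.Agent.N172.CW.Fv3

/-!
# The lemma of Schur for cuspidal representations with weak base changes
-/

set_option autoImplicit false

namespace Pool.Agent.Results.MP_7742d9_nt.BaseChangeSchur

open NumberField Complex Filter Topology IsDedekindDomain
open Pool.Agent.N172.HS (WRep)
open Pool.Agent.N172.CW
open scoped ComplexConjugate

/-- Let `π_i` be pairwise inequivalent cuspidal representations over the number field `K`.
(1) Let `π_i` have the weak base change `∑ n_{j,i,k} σ_{j,k}` to the (arbitrary) finite extension `L_j`,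
for all `i`, `j`, and let `R` be a representation of the Weil group of `K` with the character
`∑ c_j Ind ρ_j`, with `ρ_j` over `L_j` (by the theorem of Brauer every `R` is of this kind, with Hecke
characters `ρ_j`). Then `log |L(s, π_i × R)| ∼ N_i log 1/(s-1)` for `s → 1+`, where `N_i` is the number
predicted by Frobenius reciprocity, `∑ N_i ^ 2 ≤ ⟨R, R⟩`, and in the case of equality `R` is automorphic:
`∑ N_i tr π_i = conj tr R + o(1)` outside a set of primes of density zero.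
(2) Let `π` have the weak base change `∑ n_l σ_l` to the finite extension `L`, let `ρ` be a
representation of the Weil group of `L`, and let `τ_k` be the irreducible constituents of `Ind ρ`, with
multiplicities `m_k ≠ 0`. If `L(s, π × τ_k)` and `L(s, σ_l × ρ)` have the orders `r_k`, `a_l` at `s = 1`,
then either `∑ n_l a_l = 0` and all `r_k` are zero, or exactly one `r_k` is not zero, and `π` matches
`τ_k`. If all `n_l ≥ 0`, `a_l ≤ 0` (for example if `ρ` is a Hecke character) and `m_k > 0`, then no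
`L(s, π × τ_k)` has a zero at `s = 1`. -/
theorem result (K : Type) [Field K] [NumberField K] :
    (∀ (p : ℕ) (π : Fin p → Params K), (∀ i, (π i).IsCuspidal) →
      (∀ i j, i ≠ j → HasOrd (RS (π i) (π j)) 1 0) →
      ∀ (s : ℕ) (L : Fin s → Type) [∀ j, Field (L j)] [∀ j, NumberField (L j)]
        [∀ j, Algebra K (L j)] (q : Fin s → ℕ) (σ : ∀ j, Fin (q j) → Params (L j)),
      (∀ j k, (σ j k).IsCuspidal) →
      ∀ n : ∀ j, Fin p → Fin (q j) → ℝ, (∀ j i, BaseChange (π i) (σ j) (n j i)) →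
      ∀ (ρ : ∀ j, WRep (L j)) (a : ∀ j, Fin (q j) → ℤ),
      (∀ j k, HasOrd (LW (σ j k) (ρ j)) 1 (a j k)) →
      ∀ (R : WRep K) (c : Fin s → ℝ) (E : Set (HeightOneSpectrum (𝓞 K))), E.Finite →
      (∀ v, v ∉ E → R.trace v = ∑ j, (c j : ℂ) * (Ind K (ρ j)).trace v) →
      ∀ N : Fin p → ℝ, (∀ i, N i = -∑ j, c j * ∑ k, n j i k * a j k) →
      (∀ i, Tendsto (fun ε : ℝ => Real.log ‖LW (π i) R (1 + (ε : ℂ))‖ / Real.log (1 / ε))
        (𝓝[>] 0) (𝓝 (N i))) ∧
      ∑ i, N i ^ 2 ≤ R.inner R ∧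
      (∑ i, N i ^ 2 = R.inner R → ∀ η : ℝ, 0 < η →
        DensZero {v | η ≤ ‖∑ i, (N i : ℂ) * ∑ j, (π i).α v j - conj (R.trace v)‖})) ∧
    (∀ π : Params K, π.IsCuspidal →
      ∀ (L : Type) [Field L] [NumberField L] [Algebra K L] (q₁ : ℕ) (σ : Fin q₁ → Params L),
      (∀ l, (σ l).IsCuspidal) → ∀ n : Fin q₁ → ℝ, BaseChange π σ n →
      ∀ (ρ : WRep L) (a : Fin q₁ → ℤ), (∀ l, HasOrd (LW (σ l) ρ) 1 (a l)) →
      ∀ (q : ℕ) (τ : Fin q → WRep K), (∀ k, (τ k).IsIrr) →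
      (∀ k l, k ≠ l → (τ k).inner (τ l) = 0) → (∀ k, (Ind K ρ).inner (τ k) ≠ 0) →
      (Ind K ρ).inner (Ind K ρ) = ∑ k, (Ind K ρ).inner (τ k) ^ 2 →
      ∀ r : Fin q → ℤ, (∀ k, HasOrd (LW π (τ k)) 1 (r k)) →
      (∑ l, n l * a l = 0 → ∀ k, r k = 0) ∧
      (∑ l, n l * a l ≠ 0 → ∃ k, (r k = 1 ∨ r k = -1) ∧
        ((Ind K ρ).inner (τ k) : ℝ) * r k = ∑ l, n l * a l ∧ (∀ l, l ≠ k → r l = 0) ∧
        ∀ η : ℝ, 0 < η → DensZero {v | η ≤ ‖∑ j, π.α v j + r k * conj ((τ k).trace v)‖}) ∧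
      ((∀ k, 0 < (Ind K ρ).inner (τ k)) → (∀ l, 0 ≤ n l) → (∀ l, a l ≤ 0) →
        ∀ k, r k = 0 ∨ r k = -1)) := by
  refine ⟨fun p π h hne s L _ _ _ q σ hσ n hn ρ a ha R c E hE hR N hN =>
    multi_final π h hne σ hσ n hn ρ a ha R c E hE hR N hN, ?_⟩
  intro π h L _ _ _ q₁ σ hσ n hn ρ a ha q τ hτ hor hm hdec r hr
  have h1 := bc_final h hσ hn ρ τ hτ hor hdec hr ha hm
  exact ⟨h1.1, h1.2, fun hm0 hn0 ha0 k =>
    bc_nozero h hσ hn ρ τ hτ hor hdec hr ha hm0 hn0 ha0 k⟩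

end Pool.Agent.Results.MP_7742d9_nt.BaseChangeSchur
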