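import Pool.Agent.N898.BU.Zet
import Pool.Agent.N592.BU.CS
import Pool.Agent.N488.BU.HG
import Pool.Agent.N769.BU.QL
import Pool.Agent.N196.BU.GG
import Pool.Agent.N756.BU.WS

/-!
# Small and vanishing traces of automorphic representations

Let `π_k` (`k ∈ ι`, a finite family) be unitary automorphic representations of `GL_{n_k}` over `ℚ`, cuspidal or
isobaric sums of cuspidals, unramified outside the finite set `S` of primes, let `α_{p,i}(π_k)`, `i < n_k`, be the
Satake parameters and `a_p(π_k) = ∑_i α_{p,i}(π_k)` the traces, and let `r_k` be the order of the pole of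
`L(s, π_k × π_k~)` at `s = 1`; `r_k = 1` if `π_k` is cuspidal. Call a set of primes *sparse* if it has
`o(√x / log x)` elements up to `x`; finite sets are sparse.

**Theorem.**
(a) If `∑ r_k < ∑ n_k²` then `{p : ∑_k |a_p(π_k)|² < ∑_k r_k}` is not sparse.
(b) Let all `π_k` be cuspidal, some `n_k ≥ 2` and `∏_k |a_p(π_k)|²` an integer for all but finitely many `p`.
    Then `{p : a_p(π_k) = 0 for some k}` is not sparse.

(b) follows from (a), and it applies if the traces of `π` are algebraic integers of a number field `K` and the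
conjugates `(σ(a_p))_p`, `σ : K → ℂ`, are the traces of cuspidal representations; then `a_p(π) = 0` for
infinitely many `p`. This is the automorphic form of Burnside's theorem that a nonlinear irreducible character
of a finite group has a zero: if `Π = π ⊗ |·|^{w/2}` is algebraic and `φ_{Π_∞}` is a sum of `h_+ 1` and `h_- sgn`
twisted by `|·|^{w/2}`, then `M_Π` should be an Artin motive up to a Tate twist.

No form of the Ramanujan conjecture and no condition at infinity is assumed. The mean value of `|a_p(π)|²` is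
`1`, so the prime number theorem only gives `|a_p(π)| < 1 + ε`. For one cuspidal `π` more than (a) is known, see
`MP_08cfa9_nt.SmallEigenvaluesAllPlaces`; for `d = ∑ r_k ≥ 2` (several `π_k`, or isobaric sums) the method used
there does not reach the exponent `1/2`.

The structure `RankinSelberg` lists what is used of `L(s, π × π~)`; all of it is known (Jacquet,
Piatetski-Shapiro, Shalika, Mœglin, Waldspurger): if `π` is a sum of cuspidals `π_i` with multiplicities `m_i`,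
`π_i` not a twist of `π_j` by `|·|^{it}` for `i ≠ j`, then `r = ∑ m_i²`.
-/

set_option autoImplicit false

open Filter Topology Asymptotics
open scoped ComplexConjugate

namespace Pool.Agent.Results.MP_7742d9_nt.TracesVanish

/-- `∏_{m ∈ μ} Γ_ℝ(s + m)⁻¹`, `Γ_ℝ(s) = π^{-s/2} Γ(s/2)` -/
noncomputable def invGamma (μ : List ℂ) (s : ℂ) : ℂ :=
  (μ.map fun m => (Complex.Gammaℝ (s + m))⁻¹).prod

/-- `∏_{(p, b) ∈ l} (1 - b p^{-s})` -/
noncomputable def finEuler (l : List (ℕ × ℂ)) (s : ℂ) : ℂ :=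
  (l.map fun x => 1 - x.2 * (x.1 : ℂ) ^ (-s)).prod

/-- What is used of `R(s) = (s - 1)^r L^S(s, π × π~)`, where `π` on `GL_n` has the Satake parameters
`α p i`, `i < n`, at the primes `p ∉ S`. -/
structure RankinSelberg (S : Finset ℕ) (n r : ℕ) (α : ℕ → ℕ → ℂ) (R : ℂ → ℂ) : Prop where
  /-- `R` is entire -/
  entire : Differentiable ℂ R
  /-- `R` is of order at most `3/2` -/
  order : ∃ C : ℝ, ∀ s, ‖R s‖ ≤ Real.exp (C * (1 + ‖s‖) ^ (3 / 2 : ℝ))
  /-- the order of the pole at `s = 1` is `r` -/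
  pole : R 1 ≠ 0
  /-- the bound of Jacquet and Shalika for the parameters -/
  bound : ∀ p : ℕ, p.Prime → p ∉ S → ∀ i < n, ‖α p i‖ ^ 2 < p
  /-- the Euler product -/
  euler : ∀ s : ℂ, 1 < s.re → Tendsto (fun X : ℕ =>
    ∏ p ∈ (Finset.range X).filter (fun p => p.Prime ∧ p ∉ S),
      ∏ i ∈ Finset.range n, ∏ j ∈ Finset.range n,
        (1 - α p i * conj (α p j) * (p : ℂ) ^ (-s))⁻¹) atTop (𝓝 (R s / (s - 1) ^ r))
  /-- the functional equation, with `n²` gamma factors and Euler factors at the primes of `S` -/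
  functional : ∃ (μ : List ℂ) (l : List (ℕ × ℂ)) (q : ℝ) (ε : ℂ), 0 < q ∧ ε ≠ 0 ∧
    μ.length = n ^ 2 ∧ (∀ x ∈ l, x.1.Prime ∧ x.1 ∈ S) ∧
    ∀ s : ℂ, (q : ℂ) ^ s * invGamma μ (1 - s) * finEuler l (1 - s) * (R s * (-s) ^ r) =
      ε * (q : ℂ) ^ (1 - s) * invGamma μ s * finEuler l s * (R (1 - s) * (s - 1) ^ r)

/-- the trace `a_p = ∑_{i < n} α_{p,i}` -/
noncomputable def tr (n : ℕ) (α : ℕ → ℕ → ℂ) (p : ℕ) : ℂ := ∑ i ∈ Finset.range n, α p i

/-- `P` has `o(√x / log x)` elements up to `x` -/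
def Sparse (P : Set ℕ) : Prop :=
  (fun x : ℝ => (({p : ℕ | p ∈ P ∧ (p : ℝ) ≤ x}.ncard : ℕ) : ℝ)) =o[atTop]
    fun x : ℝ => Real.sqrt x / Real.log x

section

open Pool.Agent.N898.BU Pool.Agent.N210.FV

theorem gi_eq (μ : List ℂ) (s : ℂ) : gi μ s = invGamma μ s := rfl

theorem ef_eq (l : List (ℕ × ℂ)) (s : ℂ) : ef l s = finEuler l s := rfl

/-- the coefficients -/
noncomputable def bb (n : ℕ) (α : ℕ → ℕ → ℂ) (p k : ℕ) : ℝ :=
  ‖∑ j ∈ Finset.range n, α p j ^ k‖ ^ 2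

theorem RankinSelberg.rs {S : Finset ℕ} {n r : ℕ} {α : ℕ → ℕ → ℂ} {R : ℂ → ℂ}
    (h : RankinSelberg S n r α R) : RS S r (bb n α) (n ^ 2) R := by
  have hE := eu_r r h.entire h.bound h.euler
  refine ⟨⟨h.entire, ⟨1, h.pole⟩, h.order⟩, h.pole, fun p k => sq_nonneg _, hE.1, hE.2, ?_⟩
  obtain ⟨μ, l, q, ε, hq, hε, hμ, hl, hf⟩ := h.functional
  refine ⟨μ, l, [], q, ε, hq, hε, hμ, hl, by simp, fun s => ?_⟩
  have e : ∀ s, ef [] s = 1 := fun s => by simp [ef]
  have e2 : (1 - s) - 1 = -s := by ring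
  rw [e, e, e2, gi_eq, gi_eq, ef_eq, ef_eq, mul_one, mul_one]
  exact hf s

end

/-- **Part (a).** -/
theorem small {ι : Type} [Fintype ι] {S : Finset ℕ} {n r : ι → ℕ} {α : ι → ℕ → ℕ → ℂ}
    {R : ι → ℂ → ℂ} (h : ∀ k, RankinSelberg S (n k) (r k) (α k) (R k))
    (hd : ∑ k, r k < ∑ k, n k ^ 2) :
    ¬ Sparse {p : ℕ | p.Prime ∧ p ∉ S ∧ ∑ k, ‖tr (n k) (α k) p‖ ^ 2 < ∑ k, (r k : ℝ)} := by
  intro hs
  refine Pool.Agent.N898.BU.main_asm (S := S) (Z := Pool.Agent.N898.BU.Zs S)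
    Pool.Agent.N592.BU.main_CS Pool.Agent.N488.BU.main_HG Pool.Agent.N196.BU.main_GG
    Pool.Agent.N769.BU.main_QL Pool.Agent.N756.BU.main_WS (fun k => (h k).rs)
    (Pool.Agent.N898.BU.rs_zeta S) (fun β h1 h2 => Pool.Agent.N898.BU.Zs_ne S h1 h2) hd ?_
  have e : Pool.Agent.N898.BU.PP (Pool.Agent.N898.BU.be' S fun k => bb (n k) (α k))
      ((∑ k, r k : ℕ) : ℝ) =
      {p : ℕ | p.Prime ∧ p ∉ S ∧ ∑ k, ‖tr (n k) (α k) p‖ ^ 2 < ∑ k, (r k : ℝ)} := by
    ext p
    simp only [Pool.Agent.N898.BU.PP, Pool.Agent.N898.BU.be', bb, tr, Set.mem_ofPred_eq, zero_add,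
      pow_one, Nat.cast_sum, exists_prop, and_assoc]
  rw [e]
  exact hs

theorem big : Tendsto (fun x : ℝ => Real.sqrt x / Real.log x) atTop atTop := by
  have h1 : Tendsto (fun x : ℝ => Real.log x / x ^ (1 / 2 : ℝ)) atTop (𝓝 0) :=
    (isLittleO_log_rpow_atTop (by norm_num)).tendsto_div_nhds_zero
  have h2 : Tendsto (fun x : ℝ => Real.log x / x ^ (1 / 2 : ℝ)) atTop (𝓝[>] 0) := by
    refine tendsto_nhdsWithin_iff.2 ⟨h1, ?_⟩
    filter_upwards [eventually_gt_atTop 1] with x hx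
    exact div_pos (Real.log_pos hx) (by positivity)
  refine h2.inv_tendsto_nhdsGT_zero.congr fun x => ?_
  rw [Pi.inv_apply, inv_div, Real.sqrt_eq_rpow]

theorem Sparse.mono {P Q T : Set ℕ} (hQ : Sparse Q) (hT : T.Finite) (h : P ⊆ Q ∪ T) :
    Sparse P := by
  have h1 : (fun _ : ℝ => (T.ncard : ℝ)) =o[atTop] fun x : ℝ => Real.sqrt x / Real.log x :=
    isLittleO_const_left.2 (Or.inr (tendsto_norm_atTop_atTop.comp big))
  refine IsBigO.trans_isLittleO (IsBigO.of_bound 1 (Eventually.of_forall fun x => ?_))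
    (hQ.add h1)
  have hf : ∀ A : Set ℕ, {p : ℕ | p ∈ A ∧ (p : ℝ) ≤ x}.Finite := fun A =>
    (Set.finite_Iic ⌊x⌋₊).subset fun p hp => Nat.le_floor hp.2
  have h2 : {p : ℕ | p ∈ P ∧ (p : ℝ) ≤ x}.ncard ≤
      {p : ℕ | p ∈ Q ∧ (p : ℝ) ≤ x}.ncard + T.ncard := by
    refine (Set.ncard_le_ncard (t := {p : ℕ | p ∈ Q ∧ (p : ℝ) ≤ x} ∪ T) ?_
      ((hf Q).union hT)).trans (Set.ncard_union_le _ _)
    intro p hp
    rcases h hp.1 with h3 | h3
    · exact Or.inl ⟨h3, hp.2⟩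
    · exact Or.inr h3
  rw [one_mul, Real.norm_of_nonneg (by positivity), Real.norm_of_nonneg (by positivity)]
  exact_mod_cast h2

/-- the products -/
theorem product {ι : Type} [Fintype ι] {S : Finset ℕ} {n : ι → ℕ} {α : ι → ℕ → ℕ → ℂ}
    {R : ι → ℂ → ℂ} (h : ∀ k, RankinSelberg S (n k) 1 (α k) (R k)) (hn : ∃ k, 2 ≤ n k) :
    ¬ Sparse {p : ℕ | p.Prime ∧ p ∉ S ∧ ∏ k, ‖tr (n k) (α k) p‖ < 1} := by
  have h1 : ∀ k, 1 ≤ n k := by
    intro k
    by_contra h0
    have h0' : n k = 0 := by omega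
    have h2 := (h k).euler
    rw [h0'] at h2
    have h3 : ∀ s : ℂ, 1 < s.re → R k s = s - 1 := by
      intro s hs
      have h4 := h2 s hs
      simp only [Finset.range_zero, Finset.prod_empty, Finset.prod_const_one, pow_one] at h4
      have h5 := tendsto_nhds_unique tendsto_const_nhds h4
      have h6 : s - 1 ≠ 0 := by
        intro h7
        rw [sub_eq_zero.1 h7] at hs
        simp at hs
      rw [eq_div_iff h6, one_mul] at h5
      exact h5.symm
    have h8 : Tendsto (fun t : ℝ => R k (1 + t)) (𝓝[>] 0) (𝓝 (R k 1)) := by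
      have h9 : ContinuousAt (fun t : ℝ => R k (1 + t)) 0 := by
        refine ContinuousAt.comp (g := R k) ?_ (by fun_prop)
        exact (h k).entire.continuous.continuousAt
      have h10 := h9.tendsto
      rw [Complex.ofReal_zero, add_zero] at h10
      exact h10.mono_left nhdsWithin_le_nhds
    have h11 : Tendsto (fun t : ℝ => R k (1 + t)) (𝓝[>] 0) (𝓝 0) := by
      have h12 : Tendsto (fun t : ℝ => (t : ℂ)) (𝓝[>] 0) (𝓝 0) :=
        (Complex.continuous_ofReal.tendsto' 0 0 Complex.ofReal_zero).mono_left nhdsWithin_le_nhds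
      refine h12.congr' ?_
      filter_upwards [self_mem_nhdsWithin] with t ht
      rw [h3 (1 + t) (by
        rw [Complex.add_re, Complex.one_re, Complex.ofReal_re]
        linarith [Set.mem_Ioi.1 ht])]
      ring
    exact (h k).pole (tendsto_nhds_unique h8 h11)
  have hd : ∑ _k : ι, 1 < ∑ k, n k ^ 2 := by
    obtain ⟨k₀, hk₀⟩ := hn
    refine Finset.sum_lt_sum (fun k _ => ?_) ⟨k₀, Finset.mem_univ _, ?_⟩
    · exact Nat.one_le_pow _ _ (h1 k)
    · nlinarith
  intro hs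
  refine small h hd (hs.mono Set.finite_empty ?_)
  intro p hp
  left
  refine ⟨hp.1, hp.2.1, ?_⟩
  have h2 : ∏ k, ‖tr (n k) (α k) p‖ ^ 2 < 1 := by
    calc ∏ k, ‖tr (n k) (α k) p‖ ^ 2 ≤ ∏ k, Real.exp (‖tr (n k) (α k) p‖ ^ 2 - 1) :=
          Finset.prod_le_prod (fun k _ => sq_nonneg _) fun k _ => by
            have := Real.add_one_le_exp (‖tr (n k) (α k) p‖ ^ 2 - 1)
            linarith
      _ = Real.exp (∑ k, (‖tr (n k) (α k) p‖ ^ 2 - 1)) := (Real.exp_sum _ _).symm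
      _ < 1 := by
          rw [Real.exp_lt_one_iff, Finset.sum_sub_distrib]
          have := hp.2.2
          push_cast at this
          linarith
  rw [Finset.prod_pow] at h2
  have h3 : 0 ≤ ∏ k, ‖tr (n k) (α k) p‖ := Finset.prod_nonneg fun k _ => norm_nonneg _
  nlinarith

/-- **Small and vanishing traces.** -/
theorem result {ι : Type} [Fintype ι] {S : Finset ℕ} {n r : ι → ℕ} {α : ι → ℕ → ℕ → ℂ}
    {R : ι → ℂ → ℂ} (h : ∀ k, RankinSelberg S (n k) (r k) (α k) (R k)) :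
    (∑ k, r k < ∑ k, n k ^ 2 →
      ¬ Sparse {p : ℕ | p.Prime ∧ p ∉ S ∧ ∑ k, ‖tr (n k) (α k) p‖ ^ 2 < ∑ k, (r k : ℝ)}) ∧
    ((∀ k, r k = 1) → (∃ k, 2 ≤ n k) → ∀ T : Set ℕ, T.Finite →
      (∀ p : ℕ, p.Prime → p ∉ T → ∃ N : ℤ, ∏ k, ‖tr (n k) (α k) p‖ ^ 2 = N) →
      ¬ Sparse {p : ℕ | p.Prime ∧ p ∉ S ∧ ∃ k, tr (n k) (α k) p = 0}) := by
  refine ⟨small h, fun hr hn T hT hN hs => ?_⟩
  have h' : ∀ k, RankinSelberg S (n k) 1 (α k) (R k) := fun k => hr k ▸ h k
  refine product h' hn (hs.mono hT ?_)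
  intro p hp
  by_cases hpT : p ∈ T
  · exact Or.inr hpT
  · left
    refine ⟨hp.1, hp.2.1, ?_⟩
    obtain ⟨N, hN⟩ := hN p hp.1 hpT
    rw [Finset.prod_pow] at hN
    have h3 : 0 ≤ ∏ k, ‖tr (n k) (α k) p‖ := Finset.prod_nonneg fun k _ => norm_nonneg _
    have h4 := hp.2.2
    have h5 : (N : ℝ) < 1 := by
      rw [← hN]
      nlinarith
    have h6 : (0 : ℝ) ≤ N := by
      rw [← hN]
      positivity
    have h7 : N = 0 := by
      have h8 : N < 1 := by exact_mod_cast h5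
      have h9 : 0 ≤ N := by exact_mod_cast h6
      omega
    rw [h7, Int.cast_zero] at hN
    have h10 := pow_eq_zero_iff (two_ne_zero) |>.1 hN
    obtain ⟨k, -, hk⟩ := Finset.prod_eq_zero_iff.1 h10
    exact ⟨k, norm_eq_zero.1 hk⟩

end Pool.Agent.Results.MP_7742d9_nt.TracesVanish
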